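import Mathlib

/-!
# The distance spectrum of a connected graph does not determine whether it is bipartite

`Γ` is obtained from the path with four vertices by replacing its vertices, in the order of the path,
by independent sets with 3, 2, 14 and 1 vertices (adjacent vertices become completely joined sets).
`Ω` is obtained in the same way from the graph with the vertices `0, …, 4` and the edges
`01, 03, 04, 12, 14, 23` and independent sets with 1, 1, 2, 8 and 8 vertices.  Both are connected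
with 20 vertices, `Γ` is bipartite, `Ω` contains the triangle `0 1 4`, and both distance matrices have
the characteristic polynomial `(x + 2) ^ 16 (x ^ 4 - 32 x ^ 3 - 87 x ^ 2 + 452 x - 28)`.
-/

set_option autoImplicit false

namespace Pool.Agent.Results.MP_69260a_co.CospectralPair

open Matrix

/-- the distance matrix of a graph -/
noncomputable def distMatrix {V : Type} (G : SimpleGraph V) : Matrix V V ℝ :=
  Matrix.of fun u v => (G.dist u v : ℝ)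

/-- the distance spectrum of a graph: the roots of the characteristic polynomial of the (real
symmetric) distance matrix, with multiplicity, as a multiset of real numbers -/
noncomputable def distSpectrum {V : Type} [Fintype V] [DecidableEq V] (G : SimpleGraph V) :
    Multiset ℝ := (distMatrix G).charpoly.roots

/-! ### distances in graphs in which the vertices of a smaller graph are replaced by independent
sets -/

section blow

variable {V K : Type} [DecidableEq V] (G : SimpleGraph V) (c : V → K) (δ : K → K → ℕ)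

/-- the distance -/
def f (u v : V) : ℕ := if u = v then 0 else δ (c u) (c v)

variable {G c δ}

lemma exists_walk (hadj : ∀ u v, G.Adj u v ↔ δ (c u) (c v) = 1)
    (hsurj : Function.Surjective c) (hpos : ∀ i j, 1 ≤ δ i j)
    (hstep : ∀ i j, 2 ≤ δ i j → ∃ k, δ k j = 1 ∧ δ i k + 1 = δ i j) :
    ∀ (m : ℕ) (u v : V), f c δ u v = m → ∃ p : G.Walk u v, p.length = m := by
  intro m
  induction m with
  | zero =>
    intro u v h
    unfold f at h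
    by_cases huv : u = v
    · subst huv
      exact ⟨SimpleGraph.Walk.nil, rfl⟩
    · rw [if_neg huv] at h
      have := hpos (c u) (c v)
      omega
  | succ m ih =>
    intro u v h
    unfold f at h
    by_cases huv : u = v
    · rw [if_pos huv] at h
      omega
    · rw [if_neg huv] at h
      by_cases hm : m = 0
      · subst hm
        exact ⟨((hadj u v).2 (by omega)).toWalk, rfl⟩
      · obtain ⟨k, hk1, hk2⟩ := hstep (c u) (c v) (by omega)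
        obtain ⟨w, rfl⟩ := hsurj k
        have hwv : G.Adj w v := (hadj w v).2 hk1
        have hwu : u ≠ w := by
          rintro rfl
          omega
        obtain ⟨p, hp⟩ := ih u w (by unfold f; rw [if_neg hwu]; omega)
        refine ⟨p.append hwv.toWalk, ?_⟩
        rw [SimpleGraph.Walk.length_append, hp]
        rfl

lemma le_length (hadj : ∀ u v, G.Adj u v ↔ δ (c u) (c v) = 1)
    (hlip : ∀ i j k, δ i j = 1 → δ i k ≤ δ j k + 1) :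
    ∀ (u v : V) (p : G.Walk u v), f c δ u v ≤ p.length := by
  intro u v p
  induction p with
  | nil => simp [f]
  | @cons u w v h p ih =>
    rw [SimpleGraph.Walk.length_cons]
    have h1 := (hadj u w).1 h
    unfold f at ih ⊢
    by_cases huv : u = v
    · rw [if_pos huv]
      omega
    · rw [if_neg huv]
      by_cases hwv : w = v
      · subst hwv
        omega
      · rw [if_neg hwv] at ih
        have := hlip (c u) (c w) (c v) h1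
        omega

lemma dist_eq [Nonempty V] (hadj : ∀ u v, G.Adj u v ↔ δ (c u) (c v) = 1)
    (hsurj : Function.Surjective c) (hpos : ∀ i j, 1 ≤ δ i j)
    (hlip : ∀ i j k, δ i j = 1 → δ i k ≤ δ j k + 1)
    (hstep : ∀ i j, 2 ≤ δ i j → ∃ k, δ k j = 1 ∧ δ i k + 1 = δ i j) :
    G.Connected ∧ ∀ u v, G.dist u v = f c δ u v := by
  have hc : G.Connected := by
    refine SimpleGraph.Connected.mk fun u v => ?_
    obtain ⟨p, -⟩ := exists_walk hadj hsurj hpos hstep _ u v rfl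
    exact ⟨p⟩
  refine ⟨hc, fun u v => ?_⟩
  apply le_antisymm
  · obtain ⟨p, hp⟩ := exists_walk hadj hsurj hpos hstep _ u v rfl
    rw [← hp]
    exact SimpleGraph.dist_le p
  · obtain ⟨p, hp⟩ := hc.exists_walk_length_eq_dist u v
    rw [← hp]
    exact le_length hadj hlip u v p

end blow

/-! ### characteristic polynomials of similar integer matrices -/

lemma charpoly_eq {n : ℕ} (D B C I : Matrix (Fin n) (Fin n) ℤ) (d : ℤ) (hd : d ≠ 0)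
    (h1 : D * B = B * C) (h2 : B * I = d • (1 : Matrix (Fin n) (Fin n) ℤ)) :
    (D.map (Int.cast : ℤ → ℝ)).charpoly = (C.map (Int.cast : ℤ → ℝ)).charpoly := by
  set φ : Matrix (Fin n) (Fin n) ℤ →+* Matrix (Fin n) (Fin n) ℝ := (Int.castRingHom ℝ).mapMatrix
    with hφ
  have e : ∀ M : Matrix (Fin n) (Fin n) ℤ, M.map (Int.cast : ℤ → ℝ) = φ M := fun M => rfl
  rw [e, e]
  have hd' : (d : ℝ) ≠ 0 := by exact_mod_cast hd
  have h3 : φ B * φ I = (d : ℝ) • (1 : Matrix (Fin n) (Fin n) ℝ) := by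
    rw [← map_mul, h2, ← e]
    ext i j
    simp only [Matrix.map_apply, Matrix.smul_apply, smul_eq_mul, Int.cast_mul, Matrix.one_apply]
    split_ifs <;> simp
  have h4 : φ B * ((d : ℝ)⁻¹ • φ I) = 1 := by
    rw [Matrix.mul_smul, h3, smul_smul, inv_mul_cancel₀ hd', one_smul]
  have h5 : ((d : ℝ)⁻¹ • φ I) * φ B = 1 := mul_eq_one_comm.1 h4
  have h6 : φ D = φ B * φ C * ((d : ℝ)⁻¹ • φ I) := by
    rw [← map_mul, ← h1, map_mul, Matrix.mul_assoc, h4, Matrix.mul_one]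
  have h7 := Matrix.charpoly_units_conj (⟨φ B, (d : ℝ)⁻¹ • φ I, h4, h5⟩ : (Matrix (Fin n) (Fin n) ℝ)ˣ)
    (φ C)
  rw [h6, ← Matrix.inv_eq_right_inv h4]
  exact h7

/-! ### the two graphs -/

/-- the classes of the vertices of `Γ` -/
def c₁ : Fin 20 → Fin 4 :=
  ![0, 0, 0, 1, 1, 2, 2, 2, 2, 2, 2, 2, 2, 2, 2, 2, 2, 2, 2, 3]

/-- the distances between the classes of `Γ` -/
def δ₁ : Fin 4 → Fin 4 → ℕ :=
  ![![2, 1, 2, 3], ![1, 2, 1, 2], ![2, 1, 2, 1], ![3, 2, 1, 2]]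

/-- the classes of the vertices of `Ω` -/
def c₂ : Fin 20 → Fin 5 :=
  ![0, 1, 2, 2, 3, 3, 3, 3, 3, 3, 3, 3, 4, 4, 4, 4, 4, 4, 4, 4]

/-- the distances between the classes of `Ω` -/
def δ₂ : Fin 5 → Fin 5 → ℕ :=
  ![![2, 1, 2, 1, 1], ![1, 2, 1, 2, 1], ![2, 1, 2, 1, 2], ![1, 2, 1, 2, 2], ![1, 1, 2, 2, 2]]

/-- the bipartite graph -/
def Γ : SimpleGraph (Fin 20) where
  Adj u v := δ₁ (c₁ u) (c₁ v) = 1
  symm := ⟨fun u v h => by
    have : ∀ i j, δ₁ i j = 1 → δ₁ j i = 1 := by decide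
    exact this _ _ h⟩
  loopless := ⟨fun u h => by
    have : ∀ i, ¬ δ₁ i i = 1 := by decide
    exact this _ h⟩

/-- the graph that is not bipartite -/
def Ω : SimpleGraph (Fin 20) where
  Adj u v := δ₂ (c₂ u) (c₂ v) = 1
  symm := ⟨fun u v h => by
    have : ∀ i j, δ₂ i j = 1 → δ₂ j i = 1 := by decide
    exact this _ _ h⟩
  loopless := ⟨fun u h => by
    have : ∀ i, ¬ δ₂ i i = 1 := by decide
    exact this _ h⟩

lemma gamma : Γ.Connected ∧ ∀ u v, Γ.dist u v = f c₁ δ₁ u v :=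
  dist_eq (fun _ _ => Iff.rfl) (by decide) (by decide) (by decide) (by decide)

lemma omega : Ω.Connected ∧ ∀ u v, Ω.dist u v = f c₂ δ₂ u v :=
  dist_eq (fun _ _ => Iff.rfl) (by decide) (by decide) (by decide) (by decide)

/-- the distance matrix of `Γ` -/
def D₁ : Matrix (Fin 20) (Fin 20) ℤ := Matrix.of fun u v => (f c₁ δ₁ u v : ℤ)

/-- the distance matrix of `Ω` -/
def D₂ : Matrix (Fin 20) (Fin 20) ℤ := Matrix.of fun u v => (f c₂ δ₂ u v : ℤ)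

/-- the common normal form -/
def N : Matrix (Fin 20) (Fin 20) ℤ :=
  !![0, 0, 0, 28, 0, 0, 0, 0, 0, 0, 0, 0, 0, 0, 0, 0, 0, 0, 0, 0;
    1, 0, 0, -452, 0, 0, 0, 0, 0, 0, 0, 0, 0, 0, 0, 0, 0, 0, 0, 0;
    0, 1, 0, 87, 0, 0, 0, 0, 0, 0, 0, 0, 0, 0, 0, 0, 0, 0, 0, 0;
    0, 0, 1, 32, 0, 0, 0, 0, 0, 0, 0, 0, 0, 0, 0, 0, 0, 0, 0, 0;
    0, 0, 0, 0, -2, 0, 0, 0, 0, 0, 0, 0, 0, 0, 0, 0, 0, 0, 0, 0;
    0, 0, 0, 0, 0, -2, 0, 0, 0, 0, 0, 0, 0, 0, 0, 0, 0, 0, 0, 0;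
    0, 0, 0, 0, 0, 0, -2, 0, 0, 0, 0, 0, 0, 0, 0, 0, 0, 0, 0, 0;
    0, 0, 0, 0, 0, 0, 0, -2, 0, 0, 0, 0, 0, 0, 0, 0, 0, 0, 0, 0;
    0, 0, 0, 0, 0, 0, 0, 0, -2, 0, 0, 0, 0, 0, 0, 0, 0, 0, 0, 0;
    0, 0, 0, 0, 0, 0, 0, 0, 0, -2, 0, 0, 0, 0, 0, 0, 0, 0, 0, 0;
    0, 0, 0, 0, 0, 0, 0, 0, 0, 0, -2, 0, 0, 0, 0, 0, 0, 0, 0, 0;
    0, 0, 0, 0, 0, 0, 0, 0, 0, 0, 0, -2, 0, 0, 0, 0, 0, 0, 0, 0;
    0, 0, 0, 0, 0, 0, 0, 0, 0, 0, 0, 0, -2, 0, 0, 0, 0, 0, 0, 0;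
    0, 0, 0, 0, 0, 0, 0, 0, 0, 0, 0, 0, 0, -2, 0, 0, 0, 0, 0, 0;
    0, 0, 0, 0, 0, 0, 0, 0, 0, 0, 0, 0, 0, 0, -2, 0, 0, 0, 0, 0;
    0, 0, 0, 0, 0, 0, 0, 0, 0, 0, 0, 0, 0, 0, 0, -2, 0, 0, 0, 0;
    0, 0, 0, 0, 0, 0, 0, 0, 0, 0, 0, 0, 0, 0, 0, 0, -2, 0, 0, 0;
    0, 0, 0, 0, 0, 0, 0, 0, 0, 0, 0, 0, 0, 0, 0, 0, 0, -2, 0, 0;
    0, 0, 0, 0, 0, 0, 0, 0, 0, 0, 0, 0, 0, 0, 0, 0, 0, 0, -2, 0;
    0, 0, 0, 0, 0, 0, 0, 0, 0, 0, 0, 0, 0, 0, 0, 0, 0, 0, 0, -2]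

/-- transformation of `D₁` -/
def B₁ : Matrix (Fin 20) (Fin 20) ℤ :=
  !![0, -33, -1034, -35783, 1, 0, 0, 0, 0, 0, 0, 0, 0, 0, 0, 0, 0, 0, 0, 0;
    0, -33, -1034, -35783, -1, 1, 0, 0, 0, 0, 0, 0, 0, 0, 0, 0, 0, 0, 0, 0;
    0, -33, -1034, -35783, 0, -1, 0, 0, 0, 0, 0, 0, 0, 0, 0, 0, 0, 0, 0, 0;
    -1, -18, -577, -19890, 0, 0, 1, 0, 0, 0, 0, 0, 0, 0, 0, 0, 0, 0, 0, 0;
    -1, -18, -577, -19890, 0, 0, -1, 0, 0, 0, 0, 0, 0, 0, 0, 0, 0, 0, 0, 0;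
    -1, -29, -1006, -34289, 0, 0, 0, 1, 0, 0, 0, 0, 0, 0, 0, 0, 0, 0, 0, 0;
    -1, -29, -1006, -34289, 0, 0, 0, -1, 1, 0, 0, 0, 0, 0, 0, 0, 0, 0, 0, 0;
    -1, -29, -1006, -34289, 0, 0, 0, 0, -1, 1, 0, 0, 0, 0, 0, 0, 0, 0, 0, 0;
    -1, -29, -1006, -34289, 0, 0, 0, 0, 0, -1, 1, 0, 0, 0, 0, 0, 0, 0, 0, 0;
    -1, -29, -1006, -34289, 0, 0, 0, 0, 0, 0, -1, 1, 0, 0, 0, 0, 0, 0, 0, 0;
    -1, -29, -1006, -34289, 0, 0, 0, 0, 0, 0, 0, -1, 1, 0, 0, 0, 0, 0, 0, 0;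
    -1, -29, -1006, -34289, 0, 0, 0, 0, 0, 0, 0, 0, -1, 1, 0, 0, 0, 0, 0, 0;
    -1, -29, -1006, -34289, 0, 0, 0, 0, 0, 0, 0, 0, 0, -1, 1, 0, 0, 0, 0, 0;
    -1, -29, -1006, -34289, 0, 0, 0, 0, 0, 0, 0, 0, 0, 0, -1, 1, 0, 0, 0, 0;
    -1, -29, -1006, -34289, 0, 0, 0, 0, 0, 0, 0, 0, 0, 0, 0, -1, 1, 0, 0, 0;
    -1, -29, -1006, -34289, 0, 0, 0, 0, 0, 0, 0, 0, 0, 0, 0, 0, -1, 1, 0, 0;
    -1, -29, -1006, -34289, 0, 0, 0, 0, 0, 0, 0, 0, 0, 0, 0, 0, 0, -1, 1, 0;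
    -1, -29, -1006, -34289, 0, 0, 0, 0, 0, 0, 0, 0, 0, 0, 0, 0, 0, 0, -1, 1;
    -1, -29, -1006, -34289, 0, 0, 0, 0, 0, 0, 0, 0, 0, 0, 0, 0, 0, 0, 0, -1;
    -1, -18, -775, -25698, 0, 0, 0, 0, 0, 0, 0, 0, 0, 0, 0, 0, 0, 0, 0, 0]

/-- the inverse of `B₁`, times 1848 -/
def I₁ : Matrix (Fin 20) (Fin 20) ℤ :=
  !![-448, -448, -448, -3010, -3010, 504, 504, 504, 504, 504, 504, 504, 504, 504, 504, 504, 504, 504, 504, -2884;
    13860, 13860, 13860, 35707, 35707, -8922, -8922, -8922, -8922, -8922, -8922, -8922, -8922, -8922, -8922, -8922, -8922, -8922, -8922, 53494;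
    2464, 2464, 2464, 6370, 6370, -1584, -1584, -1584, -1584, -1584, -1584, -1584, -1584, -1584, -1584, -1584, -1584, -1584, -1584, 9436;
    -84, -84, -84, -217, -217, 54, 54, 54, 54, 54, 54, 54, 54, 54, 54, 54, 54, 54, 54, -322;
    1232, -616, -616, 0, 0, 0, 0, 0, 0, 0, 0, 0, 0, 0, 0, 0, 0, 0, 0, 0;
    616, 616, -1232, 0, 0, 0, 0, 0, 0, 0, 0, 0, 0, 0, 0, 0, 0, 0, 0, 0;
    0, 0, 0, 924, -924, 0, 0, 0, 0, 0, 0, 0, 0, 0, 0, 0, 0, 0, 0, 0;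
    0, 0, 0, 0, 0, 1716, -132, -132, -132, -132, -132, -132, -132, -132, -132, -132, -132, -132, -132, 0;
    0, 0, 0, 0, 0, 1584, 1584, -264, -264, -264, -264, -264, -264, -264, -264, -264, -264, -264, -264, 0;
    0, 0, 0, 0, 0, 1452, 1452, 1452, -396, -396, -396, -396, -396, -396, -396, -396, -396, -396, -396, 0;
    0, 0, 0, 0, 0, 1320, 1320, 1320, 1320, -528, -528, -528, -528, -528, -528, -528, -528, -528, -528, 0;
    0, 0, 0, 0, 0, 1188, 1188, 1188, 1188, 1188, -660, -660, -660, -660, -660, -660, -660, -660, -660, 0;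
    0, 0, 0, 0, 0, 1056, 1056, 1056, 1056, 1056, 1056, -792, -792, -792, -792, -792, -792, -792, -792, 0;
    0, 0, 0, 0, 0, 924, 924, 924, 924, 924, 924, 924, -924, -924, -924, -924, -924, -924, -924, 0;
    0, 0, 0, 0, 0, 792, 792, 792, 792, 792, 792, 792, 792, -1056, -1056, -1056, -1056, -1056, -1056, 0;
    0, 0, 0, 0, 0, 660, 660, 660, 660, 660, 660, 660, 660, 660, -1188, -1188, -1188, -1188, -1188, 0;
    0, 0, 0, 0, 0, 528, 528, 528, 528, 528, 528, 528, 528, 528, 528, -1320, -1320, -1320, -1320, 0;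
    0, 0, 0, 0, 0, 396, 396, 396, 396, 396, 396, 396, 396, 396, 396, 396, -1452, -1452, -1452, 0;
    0, 0, 0, 0, 0, 264, 264, 264, 264, 264, 264, 264, 264, 264, 264, 264, 264, -1584, -1584, 0;
    0, 0, 0, 0, 0, 132, 132, 132, 132, 132, 132, 132, 132, 132, 132, 132, 132, 132, -1716, 0]

/-- transformation of `D₂` -/
def B₂ : Matrix (Fin 20) (Fin 20) ℤ :=
  !![-4, -156, -5164, -177012, 8, 0, 0, 0, 0, 0, 0, 0, 0, 0, 0, 0, 0, 0, 0, 0;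
    -4, -204, -6724, -231108, -8, 0, 0, 0, 0, 0, 0, 0, 0, 0, 0, 0, 0, 0, 0, 0;
    -8, -204, -7196, -244404, -4, 1, 0, 0, 0, 0, 0, 0, 0, 0, 0, 0, 0, 0, 0, 0;
    -8, -204, -7196, -244404, -4, -1, 0, 0, 0, 0, 0, 0, 0, 0, 0, 0, 0, 0, 0, 0;
    -8, -252, -8756, -298500, 1, 0, 1, 0, 0, 0, 0, 0, 0, 0, 0, 0, 0, 0, 0, 0;
    -8, -252, -8756, -298500, 1, 0, -1, 1, 0, 0, 0, 0, 0, 0, 0, 0, 0, 0, 0, 0;
    -8, -252, -8756, -298500, 1, 0, 0, -1, 1, 0, 0, 0, 0, 0, 0, 0, 0, 0, 0, 0;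
    -8, -252, -8756, -298500, 1, 0, 0, 0, -1, 1, 0, 0, 0, 0, 0, 0, 0, 0, 0, 0;
    -8, -252, -8756, -298500, 1, 0, 0, 0, 0, -1, 1, 0, 0, 0, 0, 0, 0, 0, 0, 0;
    -8, -252, -8756, -298500, 1, 0, 0, 0, 0, 0, -1, 1, 0, 0, 0, 0, 0, 0, 0, 0;
    -8, -252, -8756, -298500, 1, 0, 0, 0, 0, 0, 0, -1, 1, 0, 0, 0, 0, 0, 0, 0;
    -8, -252, -8756, -298500, 1, 0, 0, 0, 0, 0, 0, 0, -1, 0, 0, 0, 0, 0, 0, 0;
    -7, -266, -8932, -305816, 0, 0, 0, 0, 0, 0, 0, 0, 0, 1, 0, 0, 0, 0, 0, 0;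
    -7, -266, -8932, -305816, 0, 0, 0, 0, 0, 0, 0, 0, 0, -1, 1, 0, 0, 0, 0, 0;
    -7, -266, -8932, -305816, 0, 0, 0, 0, 0, 0, 0, 0, 0, 0, -1, 1, 0, 0, 0, 0;
    -7, -266, -8932, -305816, 0, 0, 0, 0, 0, 0, 0, 0, 0, 0, 0, -1, 1, 0, 0, 0;
    -7, -266, -8932, -305816, 0, 0, 0, 0, 0, 0, 0, 0, 0, 0, 0, 0, -1, 1, 0, 0;
    -7, -266, -8932, -305816, 0, 0, 0, 0, 0, 0, 0, 0, 0, 0, 0, 0, 0, -1, 1, 0;
    -7, -266, -8932, -305816, 0, 0, 0, 0, 0, 0, 0, 0, 0, 0, 0, 0, 0, 0, -1, 1;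
    -7, -266, -8932, -305816, 0, 0, 0, 0, 0, 0, 0, 0, 0, 0, 0, 0, 0, 0, 0, -1]

/-- the inverse of `B₂`, times 9072 -/
def I₂ : Matrix (Fin 20) (Fin 20) ℤ :=
  !![173132, 146200, 31094, 31094, 4162, 4162, 4162, 4162, 4162, 4162, 4162, 4162, -36612, -36612, -36612, -36612, -36612, -36612, -36612, -36612;
    -35294, -28384, -7277, -7277, -367, -367, -367, -367, -367, -367, -367, -367, 7047, 7047, 7047, 7047, 7047, 7047, 7047, 7047;
    -12506, -10294, -2444, -2444, -232, -232, -232, -232, -232, -232, -232, -232, 2592, 2592, 2592, 2592, 2592, 2592, 2592, 2592;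
    392, 322, 77, 77, 7, 7, 7, 7, 7, 7, 7, 7, -81, -81, -81, -81, -81, -81, -81, -81;
    432, -432, -216, -216, 54, 54, 54, 54, 54, 54, 54, 54, 0, 0, 0, 0, 0, 0, 0, 0;
    0, 0, 4536, -4536, 0, 0, 0, 0, 0, 0, 0, 0, 0, 0, 0, 0, 0, 0, 0, 0;
    0, 0, 0, 0, 7938, -1134, -1134, -1134, -1134, -1134, -1134, -1134, 0, 0, 0, 0, 0, 0, 0, 0;
    0, 0, 0, 0, 6804, 6804, -2268, -2268, -2268, -2268, -2268, -2268, 0, 0, 0, 0, 0, 0, 0, 0;
    0, 0, 0, 0, 5670, 5670, 5670, -3402, -3402, -3402, -3402, -3402, 0, 0, 0, 0, 0, 0, 0, 0;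
    0, 0, 0, 0, 4536, 4536, 4536, 4536, -4536, -4536, -4536, -4536, 0, 0, 0, 0, 0, 0, 0, 0;
    0, 0, 0, 0, 3402, 3402, 3402, 3402, 3402, -5670, -5670, -5670, 0, 0, 0, 0, 0, 0, 0, 0;
    0, 0, 0, 0, 2268, 2268, 2268, 2268, 2268, 2268, -6804, -6804, 0, 0, 0, 0, 0, 0, 0, 0;
    0, 0, 0, 0, 1134, 1134, 1134, 1134, 1134, 1134, 1134, -7938, 0, 0, 0, 0, 0, 0, 0, 0;
    0, 0, 0, 0, 0, 0, 0, 0, 0, 0, 0, 0, 7938, -1134, -1134, -1134, -1134, -1134, -1134, -1134;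
    0, 0, 0, 0, 0, 0, 0, 0, 0, 0, 0, 0, 6804, 6804, -2268, -2268, -2268, -2268, -2268, -2268;
    0, 0, 0, 0, 0, 0, 0, 0, 0, 0, 0, 0, 5670, 5670, 5670, -3402, -3402, -3402, -3402, -3402;
    0, 0, 0, 0, 0, 0, 0, 0, 0, 0, 0, 0, 4536, 4536, 4536, 4536, -4536, -4536, -4536, -4536;
    0, 0, 0, 0, 0, 0, 0, 0, 0, 0, 0, 0, 3402, 3402, 3402, 3402, 3402, -5670, -5670, -5670;
    0, 0, 0, 0, 0, 0, 0, 0, 0, 0, 0, 0, 2268, 2268, 2268, 2268, 2268, 2268, -6804, -6804;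
    0, 0, 0, 0, 0, 0, 0, 0, 0, 0, 0, 0, 1134, 1134, 1134, 1134, 1134, 1134, 1134, -7938]

lemma e1 : D₁ * B₁ = B₁ * N := by decide +kernel
lemma e2 : B₁ * I₁ = (1848 : ℤ) • (1 : Matrix (Fin 20) (Fin 20) ℤ) := by decide +kernel
lemma e3 : D₂ * B₂ = B₂ * N := by decide +kernel
lemma e4 : B₂ * I₂ = (9072 : ℤ) • (1 : Matrix (Fin 20) (Fin 20) ℤ) := by decide +kernel

/-- **The distance spectrum does not determine bipartiteness.** -/
theorem result : ∃ Γ Ω : SimpleGraph (Fin 20), Γ.Connected ∧ Ω.Connected ∧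
    (distMatrix Γ).charpoly = (distMatrix Ω).charpoly ∧ distSpectrum Γ = distSpectrum Ω ∧
    Γ.IsBipartite ∧ ¬ Ω.IsBipartite := by
  have h1 : distMatrix Γ = D₁.map (Int.cast : ℤ → ℝ) := by
    ext u v
    simp [distMatrix, D₁, gamma.2 u v]
  have h2 : distMatrix Ω = D₂.map (Int.cast : ℤ → ℝ) := by
    ext u v
    simp [distMatrix, D₂, omega.2 u v]
  have h3 : (distMatrix Γ).charpoly = (distMatrix Ω).charpoly := by
    rw [h1, h2, charpoly_eq D₁ B₁ N I₁ 1848 (by norm_num) e1 e2,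
      charpoly_eq D₂ B₂ N I₂ 9072 (by norm_num) e3 e4]
  refine ⟨Γ, Ω, gamma.1, omega.1, h3, by rw [distSpectrum, distSpectrum, h3], ?_, ?_⟩
  · let col : Fin 4 → Fin 2 := ![0, 1, 0, 1]
    refine ⟨SimpleGraph.Coloring.mk (fun v => col (c₁ v)) ?_⟩
    intro u v h
    have : ∀ i j, δ₁ i j = 1 → (![0, 1, 0, 1] : Fin 4 → Fin 2) i ≠ (![0, 1, 0, 1] : Fin 4 → Fin 2) j := by
      decide
    exact this _ _ h
  · rintro ⟨C⟩
    have a1 : Ω.Adj 0 1 := by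
      show δ₂ (c₂ 0) (c₂ 1) = 1
      decide
    have a2 : Ω.Adj 0 19 := by
      show δ₂ (c₂ 0) (c₂ 19) = 1
      decide
    have a3 : Ω.Adj 1 19 := by
      show δ₂ (c₂ 1) (c₂ 19) = 1
      decide
    have b1 := C.valid a1
    have b2 := C.valid a2
    have b3 := C.valid a3
    generalize C 0 = x at *
    generalize C 1 = y at *
    generalize C 19 = z at *
    revert x y z
    decide

end Pool.Agent.Results.MP_69260a_co.CospectralPair
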